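import Mathlib

/-!
Cup stacking: there are connected graphs with a triangle that are not `r`-stackable for
any vertex `r`. The example is a triangle with `p ≥ 7` pendant vertices at one of its
vertices and `q ≥ 7` pendant vertices at another one.
-/

namespace Pool.Agent.Results.MP_75ab16_co.NonTree

/-- One cup stacking move: all the cups of `u` are moved onto the non-empty vertex `v`,
which is allowed when `dist(u,v)` equals the number of cups on `u`. -/
def Move {V : Type*} [DecidableEq V] (G : SimpleGraph V) (C C' : V → ℕ) : Prop :=
  ∃ u v : V, 1 ≤ C u ∧ 1 ≤ C v ∧ G.dist u v = C u ∧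
    C' = fun w => if w = u then 0 else if w = v then C u + C v else C w

/-- `G` is `r`-stackable: starting with one cup on each vertex, finitely many moves
bring all the cups onto `r`. -/
def Stackable {V : Type*} [DecidableEq V] [Fintype V] (G : SimpleGraph V) (r : V) : Prop :=
  Relation.ReflTransGen (Move G) (fun _ => 1) (fun w => if w = r then Fintype.card V else 0)

/-- The merging structure of a reachable configuration. -/
structure Merge {V : Type*} [DecidableEq V] [Fintype V] (G : SimpleGraph V) (C : V → ℕ)
    (par : V → Option V) (s : V → ℕ) : Prop where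
  root : ∀ v, par v = none → C v = s v
  child : ∀ v w, par v = some w → C v = 0 ∧ G.dist v w = s v
  sum : ∀ v, s v = 1 + ∑ u ∈ Finset.univ.filter (fun u => par u = some v), s u

lemma exists_merge {V : Type*} [DecidableEq V] [Fintype V] (G : SimpleGraph V) (C : V → ℕ)
    (h : Relation.ReflTransGen (Move G) (fun _ => 1) C) :
    ∃ (par : V → Option V) (s : V → ℕ), Merge G C par s := by
  induction h with
  | refl =>
    exact ⟨fun _ => none, fun _ => 1, ⟨fun v _ => rfl, fun v w h => by simp at h, fun v => by simp⟩⟩
  | tail _ hm ih =>
    obtain ⟨par, s, hM⟩ := ih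
    rename_i C C' _
    obtain ⟨u, v, hu, hv, hd, rfl⟩ := hm
    have hpu : par u = none := by
      by_contra hne
      obtain ⟨w, hw⟩ := Option.ne_none_iff_exists'.mp hne
      have := (hM.child u w hw).1
      omega
    have hpv : par v = none := by
      by_contra hne
      obtain ⟨w, hw⟩ := Option.ne_none_iff_exists'.mp hne
      have := (hM.child v w hw).1
      omega
    have huv : u ≠ v := by
      rintro rfl
      simp at hd
      omega
    have hsu := hM.root u hpu
    have hsv := hM.root v hpv
    refine ⟨fun w => if w = u then some v else par w,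
      fun w => if w = v then s v + s u else s w, ?_, ?_, ?_⟩
    · intro w hw
      by_cases h1 : w = u
      · simp [h1] at hw
      · simp only [h1, if_false] at hw
        by_cases h2 : w = v
        · simp only [h2, if_false, if_true, huv.symm]
          rw [hsu, hsv]; ring
        · simp only [h1, h2, if_false]
          exact hM.root w hw
    · intro w z hw
      by_cases h1 : w = u
      · subst h1
        simp only [if_true, Option.some.injEq] at hw
        subst hw
        simp only [if_true, huv, if_false, true_and]
        rw [hd, hsu]
      · simp only [h1, if_false] at hw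
        have h2 : w ≠ v := by
          rintro rfl
          rw [hpv] at hw
          simp at hw
        simp only [h1, h2, if_false]
        exact hM.child w z hw
    · intro w
      -- the value `s v` does not occur in the old sums
      have key : ∀ z, ∑ x ∈ Finset.univ.filter (fun x => par x = some z),
          (if x = v then s v + s u else s x) =
          ∑ x ∈ Finset.univ.filter (fun x => par x = some z), s x := by
        intro z
        refine Finset.sum_congr rfl fun x hx => ?_
        have hx' : par x = some z := by simpa using hx
        have : x ≠ v := by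
          rintro rfl
          rw [hpv] at hx'
          simp at hx'
        simp [this]
      by_cases h1 : w = v
      · subst h1
        have hfil : Finset.univ.filter (fun x => (if x = u then some w else par x) = some w) =
            insert u (Finset.univ.filter (fun x => par x = some w)) := by
          ext x
          by_cases hx : x = u <;> simp [hx]
        have hnot : u ∉ Finset.univ.filter (fun x => par x = some w) := by
          simp [hpu]
        simp only [if_true]
        rw [hfil, Finset.sum_insert hnot, key, if_neg huv]
        have := hM.sum w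
        omega
      · have hfil : Finset.univ.filter (fun x => (if x = u then some v else par x) = some w) =
            Finset.univ.filter (fun x => par x = some w) := by
          ext x
          by_cases hx : x = u
          · subst hx
            simp [hpu, Ne.symm h1]
          · simp [hx]
        simp only [h1, if_false]
        rw [hfil, key]
        exact hM.sum w

/-! ### The example -/

/-- The vertex set: a triangle and two sets of pendant vertices. -/
abbrev Ver (p q : ℕ) := Fin 3 ⊕ (Fin p ⊕ Fin q)

/-- The adjacency relation: the triangle, the pendant edges at `0` and those at `1`. -/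
def adj (p q : ℕ) : Ver p q → Ver p q → Prop
  | Sum.inl i, Sum.inl j => i ≠ j
  | Sum.inl i, Sum.inr (Sum.inl _) => i = 0
  | Sum.inr (Sum.inl _), Sum.inl i => i = 0
  | Sum.inl i, Sum.inr (Sum.inr _) => i = 1
  | Sum.inr (Sum.inr _), Sum.inl i => i = 1
  | _, _ => False

/-- A triangle with `p` pendant vertices at the vertex `0` and `q` at the vertex `1`. -/
def gr (p q : ℕ) : SimpleGraph (Ver p q) where
  Adj := adj p q
  symm := ⟨by
    rintro (i | i | i) (j | j | j) h <;> simp_all [adj]
    exact fun h' => h h'.symm⟩
  loopless := ⟨by rintro (i | i | i) h <;> simp_all [adj]⟩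

/-- Abstract obstruction: many pendant vertices at `c` that see only few other vertices
within distance two. -/
lemma not_stackable {V : Type*} [DecidableEq V] [Fintype V] (G : SimpleGraph V) (c r : V)
    (A K : Finset V) (hcr : c ≠ r) (hcA : c ∉ A)
    (h1 : ∀ a ∈ A, ∀ w, G.dist a w = 1 → w = c) (h2 : ∀ w, G.dist c w ≤ 2)
    (h3 : ∀ a ∈ A, ∀ w, G.dist a w ≤ 3)
    (h4 : ∀ a ∈ A, ∀ u, G.dist u a = 1 ∨ G.dist u a = 2 → u ∈ A ∨ u ∈ K)
    (hK : K.card ≤ 3) (hA : 7 ≤ A.card) : ¬ Stackable G r := by
  intro hS
  obtain ⟨par, s, hM⟩ := exists_merge G _ hS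
  have hs1 : ∀ v, 1 ≤ s v := fun v => by rw [hM.sum v]; omega
  have hpar : ∀ v, v ≠ r → ∃ w, par v = some w ∧ G.dist v w = s v := by
    intro v hv
    by_contra hcon
    push Not at hcon
    have hn : par v = none := by
      by_contra hne
      obtain ⟨w, hw⟩ := Option.ne_none_iff_exists'.mp hne
      exact hcon w hw (hM.child v w hw).2
    have := hM.root v hn
    simp only [hv, if_false] at this
    have := hs1 v
    omega
  have hle : ∀ u v, par u = some v → s u + 1 ≤ s v := by
    intro u v huv
    rw [hM.sum v]
    have : s u ≤ ∑ x ∈ Finset.univ.filter (fun x => par x = some v), s x :=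
      Finset.single_le_sum (f := s) (fun _ _ => Nat.zero_le _) (by simp [huv])
    omega
  have hexc : ∀ v, 2 ≤ s v → ∃ u, par u = some v := by
    intro v hv
    by_contra hcon
    push Not at hcon
    have : Finset.univ.filter (fun x => par x = some v) = ∅ := by
      ext x; simp [hcon x]
    have h := hM.sum v
    rw [this] at h
    simp at h
    omega
  -- children with one cup
  set A' := A.erase r with hA'
  have hA'card : 6 ≤ A'.card := by
    have h5 : A.card - 1 ≤ A'.card := Finset.pred_card_le_card_erase
    omega
  set A1 := A'.filter (fun a => s a = 1) with hA1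
  set A2 := A'.filter (fun a => ¬ s a = 1) with hA2
  have hsplit : A1.card + A2.card = A'.card := Finset.card_filter_add_card_filter_not _
  have hA1card : A1.card ≤ 1 := by
    obtain ⟨w, hw, hd⟩ := hpar c hcr
    have hsc : s c ≤ 2 := by rw [← hd]; exact h2 w
    have hsub : A1 ⊆ Finset.univ.filter (fun x => par x = some c) := by
      intro a ha
      have ha' : a ∈ A' ∧ s a = 1 := by simpa [hA1] using ha
      have haA : a ≠ r ∧ a ∈ A := by simpa [hA'] using ha'.1
      obtain ⟨w', hw', hd'⟩ := hpar a haA.1
      have : w' = c := h1 a haA.2 w' (by rw [hd']; exact ha'.2)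
      subst this
      simp [hw']
    have hsum : A1.card ≤ ∑ u ∈ Finset.univ.filter (fun x => par x = some c), s u := by
      calc A1.card ≤ (Finset.univ.filter (fun x => par x = some c)).card :=
            Finset.card_le_card hsub
        _ = ∑ u ∈ Finset.univ.filter (fun x => par x = some c), 1 := by simp
        _ ≤ _ := Finset.sum_le_sum fun u _ => hs1 u
    have := hM.sum c
    omega
  -- the other ones have a child
  have hch : ∀ a ∈ A2, ∃ u, par u = some a ∧ u ∈ insert ((par c).getD c) K := by
    intro a ha
    have ha' : a ∈ A' ∧ ¬ s a = 1 := by simpa [hA2] using ha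
    have haA : a ≠ r ∧ a ∈ A := by simpa [hA'] using ha'.1
    obtain ⟨w, hw, hd⟩ := hpar a haA.1
    have hsa : s a ≤ 3 := by rw [← hd]; exact h3 a haA.2 w
    obtain ⟨u, hu⟩ := hexc a (by have := hs1 a; omega)
    refine ⟨u, hu, ?_⟩
    have hdu := (hM.child u a hu).2
    have hsu := hle u a hu
    have hsu1 := hs1 u
    rcases h4 a haA.2 u (by rw [hdu]; omega) with huA | huK
    · -- `u ∈ A`: then `u` has two cups and its child is `c`
      have hne : s u ≠ 1 := by
        intro h
        have : a = c := h1 u huA a (by rw [hdu]; exact h)
        exact hcA (this ▸ haA.2)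
      obtain ⟨u', hu'⟩ := hexc u (by omega)
      have hdu' := (hM.child u' u hu').2
      have hsu' := hle u' u hu'
      have hsu1' := hs1 u'
      have hc : u' = c := h1 u huA u' (by rw [SimpleGraph.dist_comm, hdu']; omega)
      subst hc
      rw [hu']
      simp
    · exact Finset.mem_insert_of_mem huK
  choose! φ hφ1 hφ2 using hch
  have hA2card : A2.card ≤ 4 := by
    calc A2.card ≤ (insert ((par c).getD c) K).card := by
          refine Finset.card_le_card_of_injOn φ (fun a ha => hφ2 a ha) ?_
          intro a ha b hb hab
          have e1 := hφ1 a ha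
          have e2 := hφ1 b hb
          rw [hab, e2] at e1
          exact (Option.some.inj e1).symm
      _ ≤ K.card + 1 := Finset.card_insert_le _ _
      _ ≤ 4 := by omega
  omega

variable {p q : ℕ}

lemma adj_core {i j : Fin 3} (h : i ≠ j) : (gr p q).Adj (Sum.inl i) (Sum.inl j) := h

lemma adj_a (i : Fin p) : (gr p q).Adj (Sum.inl 0) (Sum.inr (Sum.inl i)) := rfl

lemma adj_b (i : Fin q) : (gr p q).Adj (Sum.inl 1) (Sum.inr (Sum.inr i)) := rfl

lemma dist_core (i j : Fin 3) : (gr p q).dist (Sum.inl i) (Sum.inl j) ≤ 1 := by
  by_cases h : i = j
  · subst h; simp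
  · exact le_of_eq (SimpleGraph.dist_eq_one_iff_adj.mpr (adj_core h))

lemma reach_core (i j : Fin 3) : (gr p q).Reachable (Sum.inl i) (Sum.inl j) := by
  by_cases h : i = j
  · subst h; exact SimpleGraph.Reachable.refl _
  · exact (adj_core h).reachable

lemma conn : (gr p q).Connected := by
  have : Nonempty (Ver p q) := ⟨Sum.inl 0⟩
  refine SimpleGraph.Connected.mk ?_
  have h0 : ∀ v : Ver p q, (gr p q).Reachable (Sum.inl 0) v := by
    rintro (i | i | i)
    · exact reach_core _ _
    · exact (adj_a i).reachable
    · exact (reach_core 0 1).trans (adj_b i).reachable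
  intro u v
  exact (h0 u).symm.trans (h0 v)

lemma dist_tri (u v w : Ver p q) : (gr p q).dist u w ≤ (gr p q).dist u v + (gr p q).dist v w :=
  conn.dist_triangle

/-- Distances from the attaching vertex are at most two. -/
lemma dist_c0 (w : Ver p q) : (gr p q).dist (Sum.inl 0) w ≤ 2 := by
  rcases w with i | i | i
  · exact (dist_core 0 i).trans (by norm_num)
  · rw [SimpleGraph.dist_eq_one_iff_adj.mpr (adj_a i)]; norm_num
  · have h := dist_tri (p := p) (q := q) (Sum.inl 0) (Sum.inl 1) (Sum.inr (Sum.inr i))
    have h1 := dist_core (p := p) (q := q) 0 1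
    rw [SimpleGraph.dist_eq_one_iff_adj.mpr (adj_b i)] at h
    omega

lemma dist_c1 (w : Ver p q) : (gr p q).dist (Sum.inl 1) w ≤ 2 := by
  rcases w with i | i | i
  · exact (dist_core 1 i).trans (by norm_num)
  · have h := dist_tri (p := p) (q := q) (Sum.inl 1) (Sum.inl 0) (Sum.inr (Sum.inl i))
    have h1 := dist_core (p := p) (q := q) 1 0
    rw [SimpleGraph.dist_eq_one_iff_adj.mpr (adj_a i)] at h
    omega
  · rw [SimpleGraph.dist_eq_one_iff_adj.mpr (adj_b i)]; norm_num

lemma exists_mid {V : Type*} {G : SimpleGraph V} {u v : V} (W : G.Walk u v)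
    (h : W.length = 2) : ∃ m, G.Adj u m ∧ G.Adj m v := by
  cases W with
  | nil => simp at h
  | cons h1 W' =>
    cases W' with
    | nil => simp at h
    | cons h2 W'' =>
      cases W'' with
      | nil => exact ⟨_, h1, h2⟩
      | cons _ _ => simp at h

/-- Pendant vertices on different sides are at distance at least three. -/
lemma far (i : Fin p) (j : Fin q) : ¬ ((gr p q).dist (Sum.inr (Sum.inr j)) (Sum.inr (Sum.inl i)) = 1 ∨
    (gr p q).dist (Sum.inr (Sum.inr j)) (Sum.inr (Sum.inl i)) = 2) := by
  rintro (h | h)
  · rw [SimpleGraph.dist_eq_one_iff_adj] at h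
    exact h
  · obtain ⟨W, hW⟩ := (conn (p := p) (q := q)).exists_walk_length_eq_dist
      (Sum.inr (Sum.inr j)) (Sum.inr (Sum.inl i))
    rw [h] at hW
    obtain ⟨m, h1, h2⟩ := exists_mid W hW
    rcases m with k | k | k
    · have e1 : k = 1 := h1
      have e2 : k = 0 := h2
      rw [e1] at e2
      exact absurd e2 (by decide)
    · exact h1
    · exact h1

/-- **Main theorem.** For every `n ≥ 17` there is a connected graph with `n` vertices which
is not a tree (it contains a triangle) and which is not `r`-stackable for any vertex `r`. -/
theorem result : ∀ n : ℕ, 17 ≤ n → ∃ (V : Type) (_ : Fintype V) (_ : DecidableEq V)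
    (G : SimpleGraph V), Fintype.card V = n ∧ G.Connected ∧ ¬ G.IsTree ∧
      ∀ r : V, ¬ Stackable G r := by
  intro n hn
  refine ⟨Ver 7 (n - 10), inferInstance, inferInstance, gr 7 (n - 10), ?_, conn, ?_, ?_⟩
  · simp; omega
  · intro hT
    have hac := hT.isAcyclic
    have h01 : (gr 7 (n - 10)).Adj (Sum.inl 0) (Sum.inl 1) := adj_core (by decide)
    have h12 : (gr 7 (n - 10)).Adj (Sum.inl 1) (Sum.inl 2) := adj_core (by decide)
    have h20 : (gr 7 (n - 10)).Adj (Sum.inl 2) (Sum.inl 0) := adj_core (by decide)
    exact hac (.cons h01 (.cons h12 (.cons h20 .nil))) (by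
      rw [SimpleGraph.Walk.isCycle_def, SimpleGraph.Walk.isTrail_def]
      simp)
  · intro r
    by_cases hr : r = Sum.inl 0
    · -- use the other side
      refine not_stackable (gr 7 (n - 10)) (Sum.inl 1) r
        (Finset.univ.image fun i : Fin (n - 10) => Sum.inr (Sum.inr i))
        (Finset.univ.image fun i : Fin 3 => Sum.inl i) ?_ ?_ ?_ dist_c1 ?_ ?_ ?_ ?_
      · rw [hr]; simp
      · simp
      · intro a ha w hw
        obtain ⟨i, _, rfl⟩ := Finset.mem_image.mp ha
        rw [SimpleGraph.dist_eq_one_iff_adj] at hw
        rcases w with k | k | k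
        · have : k = 1 := hw
          rw [this]
        · exact hw.elim
        · exact hw.elim
      · intro a ha w
        obtain ⟨i, _, rfl⟩ := Finset.mem_image.mp ha
        have h := dist_tri (Sum.inr (Sum.inr i)) (Sum.inl 1) w (p := 7) (q := n - 10)
        have h' := dist_c1 w (p := 7) (q := n - 10)
        have h'' : (gr 7 (n - 10)).dist (Sum.inr (Sum.inr i)) (Sum.inl 1) = 1 :=
          SimpleGraph.dist_eq_one_iff_adj.mpr (adj_b i).symm
        omega
      · intro a ha u hu
        obtain ⟨i, _, rfl⟩ := Finset.mem_image.mp ha
        rcases u with k | k | k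
        · right; simp
        · exfalso
          rw [SimpleGraph.dist_comm] at hu
          exact far k i hu
        · left; simp
      · exact Finset.card_image_le.trans (by simp)
      · have hinj : Function.Injective
            (fun i : Fin (n - 10) => (Sum.inr (Sum.inr i) : Ver 7 (n - 10))) :=
          fun a b h => Sum.inr_injective (Sum.inr_injective h)
        rw [Finset.card_image_of_injective _ hinj]
        simp; omega
    · refine not_stackable (gr 7 (n - 10)) (Sum.inl 0) r
        (Finset.univ.image fun i : Fin 7 => Sum.inr (Sum.inl i))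
        (Finset.univ.image fun i : Fin 3 => Sum.inl i) ?_ ?_ ?_ dist_c0 ?_ ?_ ?_ ?_
      · exact fun h => hr h.symm
      · simp
      · intro a ha w hw
        obtain ⟨i, _, rfl⟩ := Finset.mem_image.mp ha
        rw [SimpleGraph.dist_eq_one_iff_adj] at hw
        rcases w with k | k | k
        · have : k = 0 := hw
          rw [this]
        · exact hw.elim
        · exact hw.elim
      · intro a ha w
        obtain ⟨i, _, rfl⟩ := Finset.mem_image.mp ha
        have h := dist_tri (Sum.inr (Sum.inl i)) (Sum.inl 0) w (p := 7) (q := n - 10)
        have h' := dist_c0 w (p := 7) (q := n - 10)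
        have h'' : (gr 7 (n - 10)).dist (Sum.inr (Sum.inl i)) (Sum.inl 0) = 1 :=
          SimpleGraph.dist_eq_one_iff_adj.mpr (adj_a i).symm
        omega
      · intro a ha u hu
        obtain ⟨i, _, rfl⟩ := Finset.mem_image.mp ha
        rcases u with k | k | k
        · right; simp
        · left; simp
        · exfalso
          exact far i k hu
      · exact Finset.card_image_le.trans (by simp)
      · have hinj : Function.Injective
            (fun i : Fin 7 => (Sum.inr (Sum.inl i) : Ver 7 (n - 10))) :=
          fun a b h => Sum.inl_injective (Sum.inr_injective h)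
        rw [Finset.card_image_of_injective _ hinj]
        simp

end Pool.Agent.Results.MP_75ab16_co.NonTree
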